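import Mathlib

namespace Pool.Agent.Results.MP_f5651a_an.Limsup

open Filter Topology Polynomial Finset

variable {E : Type*} [NormedAddCommGroup E] [NormedSpace ℝ E]

def Deg (m : ℕ) (F : E → ℝ) : Prop :=
  ∀ x h : E, ∃ p : ℝ[X], p.natDegree ≤ m ∧ ∀ t : ℚ, F (x + (t : ℝ) • h) = p.eval (t : ℝ)

noncomputable def ell (m j : ℕ) : ℝ[X] := Lagrange.basis (range (m + 1)) (fun i : ℕ => (i : ℝ)) j

theorem ell_deg {m j : ℕ} (hj : j ∈ range (m + 1)) : (ell m j).natDegree ≤ m := by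
  unfold ell
  rw [Lagrange.natDegree_basis (fun a _ b _ h => Nat.cast_injective h) hj]
  simp

theorem lag {m : ℕ} {p : ℝ[X]} (hp : p.natDegree ≤ m) :
    p = ∑ j ∈ range (m + 1), C (p.eval (j : ℝ)) * ell m j := by
  have h := Lagrange.eq_interpolate (s := range (m + 1)) (v := fun i : ℕ => (i : ℝ)) (f := p)
    (fun a _ b _ h => Nat.cast_injective h) (by
      rw [card_range]
      exact lt_of_le_of_lt (degree_le_natDegree) (by exact_mod_cast Nat.lt_succ_of_le hp))
  rw [Lagrange.interpolate_apply] at h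
  exact h

theorem lag_eval {m : ℕ} {p : ℝ[X]} (hp : p.natDegree ≤ m) (s : ℝ) :
    p.eval s = ∑ j ∈ range (m + 1), p.eval (j : ℝ) * (ell m j).eval s := by
  conv_lhs => rw [lag hp]
  simp [eval_finsetSum]

theorem lag_coeff {m : ℕ} {p : ℝ[X]} (hp : p.natDegree ≤ m) (a : ℕ) :
    p.coeff a = ∑ j ∈ range (m + 1), p.eval (j : ℝ) * (ell m j).coeff a := by
  conv_lhs => rw [lag hp]
  simp

theorem rat_ext {p q : ℝ[X]} (h : ∀ t : ℚ, p.eval (t : ℝ) = q.eval (t : ℝ)) : p = q := by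
  apply eq_of_infinite_eval_eq
  refine (Set.infinite_range_of_injective (Rat.cast_injective (α := ℝ))).mono ?_
  rintro _ ⟨t, rfl⟩
  exact h t

noncomputable def L (m : ℕ) (F : E → ℝ) (x h : E) : ℝ :=
  ∑ j ∈ range (m + 1), F (x + (j : ℝ) • h) * (ell m j).coeff m

theorem L_eq {m : ℕ} {F : E → ℝ} {x h : E} {p : ℝ[X]} (hp : p.natDegree ≤ m)
    (hF : ∀ t : ℚ, F (x + (t : ℝ) • h) = p.eval (t : ℝ)) : L m F x h = p.coeff m := by
  rw [lag_coeff hp, L]
  refine sum_congr rfl fun j _ => ?_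
  have := hF (j : ℚ)
  rw [Rat.cast_natCast] at this
  rw [this]

theorem L_smul {m : ℕ} {F : E → ℝ} (hF : Deg m F) (x h : E) (c : ℚ) :
    L m F x ((c : ℝ) • h) = (c : ℝ) ^ m * L m F x h := by
  obtain ⟨p, hp, hp2⟩ := hF x h
  rw [L_eq hp hp2, L_eq (p := p.comp (C (c : ℝ) * X))]
  · rw [comp_C_mul_X_coeff, mul_comm]
  · refine natDegree_comp_le.trans ?_
    calc p.natDegree * (C (c : ℝ) * X).natDegree ≤ m * 1 :=
          Nat.mul_le_mul hp ((natDegree_C_mul_le _ _).trans natDegree_X_le)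
      _ = m := mul_one m
  · intro t
    have := hp2 (c * t)
    rw [smul_smul, mul_comm, eval_comp]
    simpa using this

theorem L_indep {m : ℕ} {F : E → ℝ} (hF : Deg m F) (x h : E) : L m F x h = L m F 0 h := by
  choose p hp hp2 using fun j : ℕ => hF ((j : ℝ) • h) x
  let q : ℕ → ℝ[X] := fun a => ∑ j ∈ range (m + 1), p j * C ((ell m j).coeff a)
  have hq : ∀ a, (q a).natDegree ≤ m := fun a =>
    natDegree_sum_le_of_forall_le _ _ fun j _ => (natDegree_mul_C_le _ _).trans (hp j)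
  have hcoef : ∀ (s : ℚ) (r : ℝ[X]), r.natDegree ≤ m →
      (∀ t : ℚ, F ((s : ℝ) • x + (t : ℝ) • h) = r.eval (t : ℝ)) →
      ∀ a, r.coeff a = (q a).eval (s : ℝ) := by
    intro s r hr hr2 a
    rw [lag_coeff hr]
    simp only [q, eval_finsetSum, eval_mul, eval_C]
    refine sum_congr rfl fun j _ => ?_
    have := hr2 (j : ℚ)
    rw [Rat.cast_natCast] at this
    rw [← this, ← hp2, add_comm]
  have hG : ∀ s t : ℚ, F ((s : ℝ) • x + (t : ℝ) • h) =
      ∑ a ∈ range (m + 1), (q a).eval (s : ℝ) * (t : ℝ) ^ a := by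
    intro s t
    obtain ⟨r, hr, hr2⟩ := hF ((s : ℝ) • x) h
    rw [hr2, eval_eq_sum_range' (Nat.lt_succ_of_le hr)]
    exact sum_congr rfl fun a _ => by rw [hcoef s r hr hr2]
  have hz : ∀ i, (q m).coeff (i + 1) = 0 := by
    intro i
    have h1 : ∀ l : ℚ, (∑ a ∈ range (m + 1),
        monomial (m + (i + 1) - a) ((q a).coeff (m + (i + 1) - a))).eval (l : ℝ)
          = (0 : ℝ[X]).eval (l : ℝ) := by
      intro l
      obtain ⟨r, hr, hr2⟩ := hF 0 ((l : ℝ) • x + h)
      have h2 : r = ∑ a ∈ range (m + 1), (q a).comp (C (l : ℝ) * X) * X ^ a := by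
        apply rat_ext
        intro u
        rw [← hr2, zero_add, smul_add, smul_smul, ← Rat.cast_mul, hG]
        rw [eval_finsetSum]
        refine sum_congr rfl fun a _ => ?_
        rw [eval_mul, eval_comp, eval_mul, eval_C, eval_X, eval_pow, eval_X, Rat.cast_mul,
          mul_comm (u : ℝ)]
      have h3 : r.coeff (m + (i + 1)) = 0 := coeff_eq_zero_of_natDegree_lt (by omega)
      rw [h2, finsetSum_coeff] at h3
      rw [eval_zero, ← h3, eval_finsetSum]
      refine sum_congr rfl fun a ha => ?_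
      have ha' : a ≤ m + (i + 1) := by have := mem_range.1 ha; omega
      rw [coeff_mul_X_pow', if_pos ha', comp_C_mul_X_coeff, eval_monomial]
    have h4 := congrArg (fun r => r.coeff (i + 1)) (rat_ext h1)
    simp only [finsetSum_coeff, coeff_monomial, coeff_zero] at h4
    rw [sum_eq_single m] at h4
    · simpa using h4
    · intro a ha ham
      have := mem_range.1 ha
      rw [if_neg (by omega)]
    · intro hm; exact absurd (self_mem_range_succ m) hm
  have hc : q m = C ((q m).coeff 0) := by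
    ext n
    rcases n with _ | n
    · simp
    · rw [hz, coeff_C_succ]
  obtain ⟨r1, hr1, hr1'⟩ := hF x h
  obtain ⟨r0, hr0, hr0'⟩ := hF 0 h
  rw [L_eq hr1 hr1', L_eq hr0 hr0', hcoef 1 r1 hr1 (by simpa using hr1'),
    hcoef 0 r0 hr0 (by simpa using hr0'), hc]
  simp

theorem sum_w (m : ℕ) : ∑ j ∈ range (m + 1), (j : ℝ) ^ m * (ell m j).coeff m = 1 := by
  have := lag_coeff (m := m) (p := X ^ m) (by simp) m
  simpa using this.symm

theorem L_poly {m : ℕ} {F : E → ℝ} (hF : Deg m F) (x h : E) :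
    ∃ q : ℝ[X], q.natDegree ≤ m ∧ (∀ t : ℚ, L m F 0 (x + (t : ℝ) • h) = q.eval (t : ℝ)) ∧
      q.coeff m = L m F 0 h := by
  choose p hp hp2 using fun j : ℕ => hF ((j : ℝ) • x) ((j : ℝ) • h)
  refine ⟨∑ j ∈ range (m + 1), p j * C ((ell m j).coeff m),
    natDegree_sum_le_of_forall_le _ _ fun j _ => (natDegree_mul_C_le _ _).trans (hp j), ?_, ?_⟩
  · intro t
    simp only [L, eval_finsetSum, eval_mul, eval_C]
    refine sum_congr rfl fun j _ => ?_
    rw [← hp2, zero_add, smul_add, smul_comm]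
  · simp only [finsetSum_coeff, coeff_mul_C]
    have : ∀ j : ℕ, (p j).coeff m = (j : ℝ) ^ m * L m F 0 h := by
      intro j
      rw [← L_eq (hp j) (hp2 j), L_indep hF]
      have := L_smul hF 0 h (j : ℚ)
      rwa [Rat.cast_natCast] at this
    simp only [this]
    calc _ = L m F 0 h * ∑ j ∈ range (m + 1), (j : ℝ) ^ m * (ell m j).coeff m := by
          rw [mul_sum]; exact sum_congr rfl fun j _ => by ring
      _ = _ := by rw [sum_w, mul_one]

theorem deg_L {m : ℕ} {F : E → ℝ} (hF : Deg m F) : Deg m (L m F 0) := fun x h => by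
  obtain ⟨q, h1, h2, -⟩ := L_poly hF x h
  exact ⟨q, h1, h2⟩

theorem deg_sub {m : ℕ} {F : E → ℝ} (hF : Deg (m + 1) F) :
    Deg m (fun x => F x - L (m + 1) F 0 x) := fun x h => by
  obtain ⟨q, h1, h2, h3⟩ := L_poly hF x h
  obtain ⟨p, hp, hp2⟩ := hF x h
  refine ⟨p - q, ?_, fun t => by simp [h2, hp2]⟩
  rw [natDegree_le_iff_coeff_eq_zero]
  intro N hN
  rcases (Nat.succ_le_of_lt hN).eq_or_lt with rfl | hN'
  · rw [coeff_sub, h3, ← L_eq hp hp2, L_indep hF, sub_self]
  · rw [coeff_sub, coeff_eq_zero_of_natDegree_lt (by omega),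
      coeff_eq_zero_of_natDegree_lt (by omega), sub_self]

def Bd (F : E → ℝ) (y : E) : Prop := ∃ M : ℝ, ∀ᶠ z in 𝓝 y, |F z| ≤ M

theorem bd_of {m : ℕ} {F : E → ℝ} (hF : Deg m F) (h0 : Bd F 0) (y : E) : Bd F y := by
  obtain ⟨M, hM⟩ := h0
  obtain ⟨ε, hε, hM⟩ := Metric.eventually_nhds_iff.1 hM
  obtain ⟨N, hN⟩ := exists_nat_gt (2 * m * ‖y‖ / ε)
  have hN0 : (0:ℝ) < N := lt_of_le_of_lt (by positivity) hN
  refine ⟨∑ j ∈ range (m + 1), M * |(ell m j).eval (N : ℝ)|, Metric.eventually_nhds_iff.2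
    ⟨ε / 2, by positivity, fun z hz => ?_⟩⟩
  obtain ⟨p, hp, hp2⟩ := hF (z - y) ((N : ℝ)⁻¹ • y)
  have h1 := hp2 (N : ℚ)
  rw [Rat.cast_natCast, smul_smul, mul_inv_cancel₀ hN0.ne', one_smul, sub_add_cancel] at h1
  rw [h1, lag_eval hp]
  refine (abs_sum_le_sum_abs _ _).trans (sum_le_sum fun j hj => ?_)
  rw [abs_mul]
  refine mul_le_mul_of_nonneg_right ?_ (abs_nonneg _)
  have h2 := hp2 (j : ℚ)
  rw [Rat.cast_natCast] at h2
  rw [← h2]
  apply hM
  rw [dist_zero_right]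
  rw [dist_eq_norm] at hz
  have hj' : (j : ℝ) ≤ m := by exact_mod_cast Nat.le_of_lt_succ (mem_range.1 hj)
  refine (norm_add_le _ _).trans_lt ?_
  rw [norm_smul, norm_smul, Real.norm_natCast, norm_inv, Real.norm_natCast]
  have h3 : (j : ℝ) * ((N : ℝ)⁻¹ * ‖y‖) ≤ ε / 2 := by
    rw [div_lt_iff₀ hε] at hN
    calc (j : ℝ) * ((N : ℝ)⁻¹ * ‖y‖) ≤ m * ((N : ℝ)⁻¹ * ‖y‖) := by gcongr
      _ = (2 * m * ‖y‖) / (2 * N) := by field_simp
      _ ≤ (N * ε) / (2 * N) := by gcongr
      _ = ε / 2 := by field_simp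
  linarith

theorem cont_of {m : ℕ} {F : E → ℝ} (hF : Deg m F) {y : E} (h0 : Bd F y) :
    ContinuousAt F y := by
  obtain ⟨M, hM⟩ := h0
  obtain ⟨ε, hε, hM⟩ := Metric.eventually_nhds_iff.1 hM
  let g : ℝ → ℝ := fun s => ∑ j ∈ range (m + 1), M * |(ell m j).eval s - (ell m j).eval 0|
  have hg : Continuous g := continuous_finsetSum _ fun j _ => by
    have := (ell m j).continuous
    fun_prop
  have hg0 : g 0 = 0 := by simp [g]
  have hg1 : Tendsto (fun n : ℕ => g (1 / ((n : ℝ) + 1))) atTop (𝓝 0) := by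
    rw [← hg0]
    exact (hg.tendsto 0).comp tendsto_one_div_add_atTop_nhds_zero_nat
  rw [Metric.continuousAt_iff]
  intro η hη
  obtain ⟨n, hn⟩ := (hg1.eventually (gt_mem_nhds hη)).exists
  refine ⟨ε / ((m + 1) * (n + 1)), by positivity, fun z hz => ?_⟩
  obtain ⟨p, hp, hp2⟩ := hF y (((n : ℝ) + 1) • (z - y))
  have h1 := hp2 (1 / ((n : ℚ) + 1))
  have h2 := hp2 0
  have hn1 : (n : ℝ) + 1 ≠ 0 := by positivity
  push_cast at h1 h2
  rw [smul_smul, one_div_mul_cancel hn1, one_smul, add_sub_cancel] at h1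
  rw [zero_smul, add_zero] at h2
  rw [Real.dist_eq, h1, h2, lag_eval hp, lag_eval hp 0, ← sum_sub_distrib]
  refine lt_of_le_of_lt ((abs_sum_le_sum_abs _ _).trans (sum_le_sum fun j hj => ?_)) hn
  rw [← mul_sub, abs_mul]
  refine mul_le_mul_of_nonneg_right ?_ (abs_nonneg _)
  have h2 := hp2 (j : ℚ)
  rw [Rat.cast_natCast] at h2
  rw [← h2]
  apply hM
  rw [dist_eq_norm] at hz ⊢
  have hj' : (j : ℝ) ≤ m + 1 := by exact_mod_cast (mem_range.1 hj).le
  rw [add_sub_cancel_left, norm_smul, norm_smul, Real.norm_natCast, Real.norm_eq_abs,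
    abs_of_pos (by positivity)]
  rw [lt_div_iff₀ (by positivity)] at hz
  calc (j : ℝ) * (((n : ℝ) + 1) * ‖z - y‖) ≤ (m + 1) * (((n : ℝ) + 1) * ‖z - y‖) := by gcongr
    _ = ‖z - y‖ * ((m + 1) * (n + 1)) := by ring
    _ < ε := hz

theorem main (m : ℕ) : ∀ F : E → ℝ, Deg m F → ¬ Bd F 0 →
    ∃ x : ℕ → E, Tendsto x atTop (𝓝 0) ∧ ∀ (y : E) (M : ℝ), ∃ᶠ n in atTop, M ≤ |F (x n + y)| := by
  induction m with
  | zero =>
    intro F hF hb
    refine absurd ⟨|F 0|, Eventually.of_forall fun z => ?_⟩ hb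
    obtain ⟨p, hp, hp2⟩ := hF 0 z
    have h1 := hp2 1
    have h0 := hp2 0
    rw [eq_C_of_natDegree_le_zero hp] at h1 h0
    simp only [Rat.cast_one, one_smul, zero_add, eval_C, Rat.cast_zero, zero_smul] at h1 h0
    rw [h1, h0]
  | succ m ih =>
    intro F hF hb
    by_cases hL : Bd (L (m + 1) F 0) 0
    · have hb' : ¬ Bd (fun x => F x - L (m + 1) F 0 x) 0 := by
        rintro ⟨M, hM⟩
        obtain ⟨M', hM'⟩ := hL
        refine hb ⟨M + M', ?_⟩
        filter_upwards [hM, hM'] with z h1 h2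
        have := abs_add_le (F z - L (m + 1) F 0 z) (L (m + 1) F 0 z)
        rw [sub_add_cancel] at this
        linarith
      obtain ⟨x, hx, hx2⟩ := ih _ (deg_sub hF) hb'
      refine ⟨x, hx, fun y M => ?_⟩
      obtain ⟨M', hM'⟩ := bd_of (deg_L hF) hL y
      have h1 : Tendsto (fun n => x n + y) atTop (𝓝 y) := by simpa using hx.add_const y
      refine ((hx2 y (M + M')).and_eventually (h1.eventually hM')).mono fun n ⟨h2, h3⟩ => ?_
      have := abs_sub (F (x n + y)) (L (m + 1) F 0 (x n + y))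
      linarith
    · have h1 : ∀ k : ℕ, ∃ h : E, ‖h‖ < 1 / ((k : ℝ) + 1) ∧ (k : ℝ) < |L (m + 1) F 0 h| := by
        intro k
        by_contra hk
        push Not at hk
        exact hL ⟨k, Metric.eventually_nhds_iff.2 ⟨1 / ((k : ℝ) + 1), by positivity,
          fun z hz => hk z (by simpa using hz)⟩⟩
      choose h hh1 hh2 using h1
      have hdiv : Tendsto (fun n : ℕ => n / (m + 2)) atTop atTop :=
        Nat.tendsto_div_const_atTop (by omega)
      refine ⟨fun n => ((n % (m + 2) : ℕ) : ℝ) • h (n / (m + 2)), ?_, fun y M => ?_⟩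
      · rw [tendsto_zero_iff_norm_tendsto_zero]
        have h2 := (tendsto_one_div_add_atTop_nhds_zero_nat.comp hdiv).const_mul ((m : ℝ) + 2)
        rw [mul_zero] at h2
        refine squeeze_zero (fun _ => norm_nonneg _) (fun n => ?_) h2
        rw [norm_smul, Real.norm_natCast]
        have h3 : ((n % (m + 2) : ℕ) : ℝ) ≤ m + 2 := by
          exact_mod_cast (Nat.mod_lt n (by omega : m + 2 > 0)).le
        exact mul_le_mul h3 (hh1 _).le (norm_nonneg _) (by positivity)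
      · by_contra hc
        rw [not_frequently] at hc
        obtain ⟨N, hN⟩ := eventually_atTop.1 hc
        obtain ⟨k, hk⟩ := exists_nat_gt (max (N : ℝ)
          (∑ j ∈ range (m + 1 + 1), M * |(ell (m + 1) j).coeff (m + 1)|))
        have hk1 : N < k := by exact_mod_cast (le_max_left _ _).trans_lt hk
        have hk2 := (le_max_right _ _).trans_lt hk
        have h4 := hh2 k
        rw [← L_indep hF y, L] at h4
        refine absurd (hk2.trans h4) (not_lt.2 ?_)
        refine (abs_sum_le_sum_abs _ _).trans (sum_le_sum fun j hj => ?_)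
        rw [abs_mul]
        refine mul_le_mul_of_nonneg_right ?_ (abs_nonneg _)
        have hj' : j < m + 2 := mem_range.1 hj
        have h5 := hN (j + (m + 2) * k) (by nlinarith)
        beta_reduce at h5
        rw [Nat.add_mul_mod_self_left, Nat.mod_eq_of_lt hj', Nat.add_mul_div_left _ _ (by omega),
          Nat.div_eq_of_lt hj', zero_add, add_comm] at h5
        exact (not_le.1 h5).le

theorem result (E : Type*) [NormedAddCommGroup E] [NormedSpace ℝ E] [CompleteSpace E]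
    (m : ℕ) (F : E → ℝ)
    (hF : ∀ x₀ h₀ : E, ∃ a : Fin (m + 1) → ℝ, ∀ t : ℚ,
      F (x₀ + (t : ℝ) • h₀) = ∑ i, a i * (t : ℝ) ^ (i : ℕ))
    (hd : ¬ Continuous F) :
    ∃ x : ℕ → E, Tendsto x atTop (𝓝 0) ∧
      ∀ y : E, limsup (fun n => ((|F (x n + y)| : ℝ) : EReal)) atTop = ⊤ := by
  have hF' : Deg m F := by
    intro x h
    obtain ⟨a, ha⟩ := hF x h
    refine ⟨∑ i, C (a i) * X ^ (i : ℕ), natDegree_sum_le_of_forall_le _ _ fun i _ =>
      (natDegree_C_mul_X_pow_le _ _).trans (Nat.le_of_lt_succ i.2), fun t => ?_⟩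
    rw [ha]; simp [eval_finsetSum]
  obtain ⟨x, hx, hx2⟩ := main m F hF' fun hb =>
    hd (continuous_iff_continuousAt.2 fun y => cont_of hF' (bd_of hF' hb y))
  refine ⟨x, hx, fun y => ?_⟩
  rw [EReal.eq_top_iff_forall_lt]
  intro M
  refine lt_of_lt_of_le (EReal.coe_lt_coe_iff.2 (lt_add_one M)) ?_
  exact le_limsup_of_frequently_le ((hx2 y (M + 1)).mono fun n hn => EReal.coe_le_coe_iff.2 hn)

end Pool.Agent.Results.MP_f5651a_an.Limsup
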