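import Mathlib

namespace Pool.Agent.Results.MP_f5651a_an.NoBlowUp

open Filter Topology Cardinal Module

theorem exists_form {E : Type} [AddCommGroup E] [Module ℝ E]
    (hE : Module.rank ℝ E = Cardinal.continuum) :
    ∃ C : E →ₗ[ℝ] E →ₗ[ℝ] ℝ, ∀ (h : ℕ → E) (φ : E →ₗ[ℝ] ℝ),
      ∃ e : E, ∀ n, C e (h n) = φ (h n) ∧ C (h n) e = 0 := by
  classical
  let ι := Basis.ofVectorSpaceIndex ℝ E
  let b : Basis ι ℝ E := Basis.ofVectorSpace ℝ E
  have hι : Cardinal.mk ι = Cardinal.continuum := by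
    rw [← hE]; exact b.mk_eq_rank''
  have hne : Nonempty ι := by
    rw [← Cardinal.mk_ne_zero_iff, hι]; exact Cardinal.continuum_ne_zero
  have hle : Cardinal.mk ((ℕ → ℕ) × (ℕ → ι) × (ℕ → ℝ)) ≤ Cardinal.mk ι := by
    simp [Cardinal.mk_prod, Cardinal.mk_pi, hι, Cardinal.mk_real]
  obtain ⟨f⟩ := (Cardinal.le_def _ _).1 hle
  let D : ι → (ℕ → ℕ) × (ℕ → ι) × (ℕ → ℝ) := Function.invFun f
  have hD : Function.Surjective D := Function.invFun_surjective f.injective
  let lt : ι → ι → Prop := fun j i => ∀ᶠ n in atTop, (D j).1 n < (D i).1 n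
  let ψ : ι → ι → ℝ := fun i j =>
    if hh : ∃ n, (D i).2.1 n = j then (D i).2.2 hh.choose else 0
  let C : E →ₗ[ℝ] E →ₗ[ℝ] ℝ :=
    b.constr ℝ fun i => b.constr ℝ fun j => if lt j i then ψ i j else 0
  have hC : ∀ i j, C (b i) (b j) = if lt j i then ψ i j else 0 := by
    intro i j; simp [C]
  refine ⟨C, fun h φ => ?_⟩
  have hS : (⋃ n, ((b.repr (h n)).support : Set ι)).Countable :=
    Set.countable_iUnion fun n => (Finset.countable_toSet _)
  obtain ⟨s, hs⟩ := Set.countable_iff_exists_subset_range.1 hS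
  let g : ℕ → ℕ := fun n => (∑ k ∈ Finset.range (n + 1), (D (s k)).1 n) + 1
  obtain ⟨i, hi⟩ := hD (g, s, fun n => φ (b (s n)))
  have hlt : ∀ k, lt (s k) i := by
    intro k
    filter_upwards [eventually_ge_atTop k] with n hn
    rw [hi]
    exact Nat.lt_succ_of_le (Finset.single_le_sum (f := fun k => (D (s k)).1 n)
      (fun _ _ => Nat.zero_le _) (Finset.mem_range.2 (Nat.lt_succ_of_le hn)))
  have hnlt : ∀ k, ¬ lt i (s k) := by
    intro k hk
    obtain ⟨n, h1, h2⟩ := ((hlt k).and hk).exists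
    omega
  have hmem : ∀ n, h n ∈ Submodule.span ℝ (b '' Set.range s) := fun n =>
    Submodule.span_mono (Set.image_mono ((Set.subset_iUnion
      (fun n => ((b.repr (h n)).support : Set ι)) n).trans hs)) (b.mem_span_repr_support _)
  refine ⟨b i, fun n => ⟨?_, ?_⟩⟩
  · refine LinearMap.eqOn_span (f := C (b i)) (g := φ) ?_ (hmem n)
    rintro _ ⟨_, ⟨k, rfl⟩, rfl⟩
    rw [hC, if_pos (hlt k)]
    have hh : ∃ n, (D i).2.1 n = s k := ⟨k, by rw [hi]⟩
    simp only [ψ, dif_pos hh]
    have h2 := hh.choose_spec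
    generalize hh.choose = c at h2
    rw [hi] at h2 ⊢
    simp only at h2 ⊢
    rw [h2]
  · have := LinearMap.eqOn_span (f := C.flip (b i)) (g := 0) ?_ (hmem n)
    · simpa using this
    rintro _ ⟨_, ⟨k, rfl⟩, rfl⟩
    simp [hC, hnlt k]

theorem rank_l2 : Module.rank ℝ (lp (fun _ : ℕ => ℝ) 2) = Cardinal.continuum := by
  apply le_antisymm
  · refine (rank_le_card ℝ _).trans ?_
    refine (Cardinal.mk_le_of_injective
      (f := fun x : lp (fun _ : ℕ => ℝ) 2 => (x : ℕ → ℝ)) (fun x y hxy => lp.ext hxy)).trans ?_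
    simp [Cardinal.mk_pi, Cardinal.mk_real]
  · have hm : ∀ t : Set.Ioo (0:ℝ) 1, Memℓp (fun n : ℕ => (t:ℝ) ^ n) 2 := by
      intro t
      apply memℓp_gen
      have h1 : (t:ℝ) ^ 2 < 1 := by nlinarith [t.2.1, t.2.2]
      refine (summable_geometric_of_lt_one (by positivity) h1).congr fun n => ?_
      simp only [ENNReal.toReal_ofNat, Real.norm_eq_abs, Real.rpow_ofNat, sq_abs]
      ring
    let v : Set.Ioo (0:ℝ) 1 → lp (fun _ : ℕ => ℝ) 2 := fun t => ⟨_, hm t⟩
    have hv : LinearIndependent ℝ v := by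
      let L : lp (fun _ : ℕ => ℝ) 2 →ₗ[ℝ] (Multiplicative ℕ → ℝ) :=
        { toFun := fun x n => x (Multiplicative.toAdd n)
          map_add' := fun x y => rfl
          map_smul' := fun c x => rfl }
      apply LinearIndependent.of_comp L
      have := (linearIndependent_monoidHom (Multiplicative ℕ) ℝ).comp
        (fun t : Set.Ioo (0:ℝ) 1 => powersHom ℝ (t:ℝ)) (fun s t hst =>
          Subtype.ext ((powersHom ℝ).injective hst))
      exact this
    have := hv.cardinal_le_rank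
    rwa [Cardinal.mk_Ioo_real zero_lt_one] at this

theorem ext_fun {E : Type} [AddCommGroup E] [Module ℝ E] (B : Set E)
    (hB : LinearIndependent ℝ ((↑) : B → E)) (r : E → ℝ) :
    ∃ φ : E →ₗ[ℝ] ℝ, ∀ v ∈ B, φ v = r v := by
  have hB' : LinearIndepOn ℝ id B := hB
  let b := Basis.extend hB'
  refine ⟨b.constr ℝ fun i => r i, fun v hv => ?_⟩
  have hv' : v ∈ hB'.extend (Set.subset_univ _) := hB'.subset_extend _ hv
  have : v = b ⟨v, hv'⟩ := (Basis.extend_apply_self hB' ⟨v, hv'⟩).symm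
  conv_lhs => rw [this]
  simp

/-- `E` carries a discontinuous functional of degree 2 with no blow-up sequence. -/
def Counter (E : Type) [NormedAddCommGroup E] [NormedSpace ℝ E] : Prop :=
  ∃ F : E → ℝ,
    (∀ x₀ h₀ : E, ∃ a : Fin (2 + 1) → ℝ, ∀ t : ℚ,
      F (x₀ + (t : ℝ) • h₀) = ∑ i, a i * (t : ℝ) ^ (i : ℕ)) ∧
    ¬ Continuous F ∧
    ∀ x : ℕ → E, Tendsto x atTop (𝓝 0) →
      ∃ y, ¬ Tendsto (fun n => |F (x n + y)|) atTop atTop

theorem result : Counter (lp (fun _ : ℕ => ℝ) 2) := by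
  obtain ⟨C, hC⟩ := exists_form rank_l2
  have hadd : ∀ u v, C (u + v) (u + v) = C u u + C u v + C v u + C v v := by
    intro u v; simp only [map_add, LinearMap.add_apply]; ring
  refine ⟨fun x => C x x, fun x h => ⟨![C x x, C x h + C h x, C h h], fun t => ?_⟩, ?_, ?_⟩
  · simp only [hadd, map_smul, LinearMap.smul_apply, smul_eq_mul, Fin.sum_univ_succ]
    simp
    ring
  · intro hF
    let b := Basis.ofVectorSpace ℝ (lp (fun _ : ℕ => ℝ) 2)
    have hinf : Infinite (Basis.ofVectorSpaceIndex ℝ (lp (fun _ : ℕ => ℝ) 2)) := by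
      rw [Cardinal.infinite_iff, b.mk_eq_rank'', rank_l2]; exact Cardinal.aleph0_le_continuum
    let f := Infinite.natEmbedding (Basis.ofVectorSpaceIndex ℝ (lp (fun _ : ℕ => ℝ) 2))
    have hw : LinearIndependent ℝ (fun n => b (f n)) := b.linearIndependent.comp f f.injective
    have hpos : ∀ n, 0 < ‖b (f n)‖ := fun n => norm_pos_iff.2 (b.ne_zero _)
    let c : ℕ → ℝˣ := fun n => Units.mk0 (1 / ((n:ℝ) + 1) * ‖b (f n)‖⁻¹) (by
      have := hpos n; positivity)
    have hw2 := hw.units_smul c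
    set h := c • fun n => b (f n) with hh
    have h0 : Tendsto h atTop (𝓝 0) := by
      rw [tendsto_zero_iff_norm_tendsto_zero]
      refine tendsto_one_div_add_atTop_nhds_zero_nat.congr fun n => ?_
      have := hpos n
      simp only [hh, Pi.smul_apply', c, Units.smul_def, Units.val_mk0, norm_smul, norm_mul,
        norm_inv, Real.norm_eq_abs, abs_norm]
      rw [abs_of_pos (by positivity)]
      field_simp
    obtain ⟨φ, hφ⟩ := ext_fun (Set.range h) hw2.linearIndepOn_id fun v => 1 - C v v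
    obtain ⟨e, he⟩ := hC h φ
    have h1 : Tendsto (fun n => C (h n + e) (h n + e)) atTop (𝓝 (C (0 + e) (0 + e))) :=
      (hF.tendsto (0 + e)).comp (h0.add_const e)
    have h2 : (fun n => C (h n + e) (h n + e)) = fun _ => C e e + 1 := by
      funext n
      rw [hadd, (he n).1, (he n).2, hφ _ ⟨n, rfl⟩]; ring
    rw [h2, zero_add] at h1
    have := tendsto_nhds_unique h1 tendsto_const_nhds
    linarith
  · intro x hx
    obtain ⟨B, hB1, hB2, hB3⟩ := exists_linearIndependent ℝ (Set.range x)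
    by_cases hfin : B.Finite
    · refine ⟨0, fun hh => ?_⟩
      have : FiniteDimensional ℝ (Submodule.span ℝ (Set.range x)) := by
        rw [← hB2]; exact FiniteDimensional.span_of_finite ℝ hfin
      let W := Submodule.span ℝ (Set.range x)
      let C' : W →ₗ[ℝ] W →ₗ[ℝ] ℝ := C.compl₁₂ W.subtype W.subtype
      let C2 : W →L[ℝ] W →L[ℝ] ℝ := LinearMap.toContinuousLinearMap
        ((LinearMap.toContinuousLinearMap : (W →ₗ[ℝ] ℝ) ≃ₗ[ℝ] (W →L[ℝ] ℝ)).toLinearMap ∘ₗ C')
      let z : ℕ → W := fun n => ⟨x n, Submodule.subset_span ⟨n, rfl⟩⟩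
      have hz : Tendsto z atTop (𝓝 0) := tendsto_subtype_rng.2 hx
      have hc : Continuous fun w : W => |C2 w w| :=
        (C2.continuous.clm_apply continuous_id).abs
      have h1 := (hc.tendsto 0).comp hz
      have h2 : (fun n => |C (x n + 0) (x n + 0)|) = (fun w : W => |C2 w w|) ∘ z := by
        funext n; simp [C2, C', z]
      simp only at hh
      rw [h2] at hh
      exact not_tendsto_atTop_of_tendsto_nhds h1 hh
    · obtain ⟨φ, hφ⟩ := ext_fun B hB3 fun v => - C v v
      obtain ⟨e, he⟩ := hC x φ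
      refine ⟨e, fun hh => ?_⟩
      have hfr : ∃ᶠ n in atTop, x n ∈ B := by
        rw [Nat.frequently_atTop_iff_infinite]
        intro hf
        apply hfin
        refine (hf.image x).subset fun v hv => ?_
        obtain ⟨n, rfl⟩ := hB1 hv
        exact ⟨n, hv, rfl⟩
      obtain ⟨n, h1, h2⟩ := (hfr.and_eventually (hh.eventually_gt_atTop |C e e|)).exists
      simp only [hadd, (he n).1, (he n).2, hφ _ h1] at h2
      simp at h2

end Pool.Agent.Results.MP_f5651a_an.NoBlowUp
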